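import Pool.Agent.H568.SP.FinA

set_option autoImplicit false

/-! # Large character sums over small primes along arithmetic progressions -/

namespace Pool.Agent.H568.TQ

open Finset Pool.Agent.H568.SP

theorem jac_Ioc (M : ℕ) (hM : 2 ≤ M) (hne : ∃ a : ℕ, jacobiSym (a : ℤ) M = -1) (x H : ℕ) :
    |∑ n ∈ Ioc x (x + H), ((jacobiSym (n : ℤ) M : ℤ) : ℝ)| ≤
      8 * Real.sqrt M * (1 + Real.log M) := by
  have h2 : ∑ n ∈ Ioc x (x + H), ((jacobiSym (n : ℤ) M : ℤ) : ℝ) =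
      ∑ n ∈ Icc 1 (x + H), ((jacobiSym (n : ℤ) M : ℤ) : ℝ) -
        ∑ n ∈ Icc 1 x, ((jacobiSym (n : ℤ) M : ℤ) : ℝ) := by
    have h3 : ∀ m : ℕ, Icc 1 m = Ioc 0 m := fun m => by
      ext z; simp [mem_Icc, mem_Ioc, Nat.succ_le_iff]
    rw [h3, h3, eq_sub_iff_add_eq, add_comm]
    exact sum_Ioc_consecutive _ (Nat.zero_le x) (by omega)
  rw [h2]
  have h4 := jac_sum_le M hM hne (x + H)
  have h5 := jac_sum_le M hM hne x
  calc |∑ n ∈ Icc 1 (x + H), ((jacobiSym (n : ℤ) M : ℤ) : ℝ) -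
        ∑ n ∈ Icc 1 x, ((jacobiSym (n : ℤ) M : ℤ) : ℝ)| ≤
      4 * Real.sqrt M * (1 + Real.log M) + 4 * Real.sqrt M * (1 + Real.log M) :=
        (abs_sub _ _).trans (add_le_add h4 h5)
    _ = _ := by ring

/-- in an arithmetic progression -/
theorem jac_AP (M : ℕ) (hM : 2 ≤ M) (hne : ∃ a : ℕ, jacobiSym (a : ℤ) M = -1) (a : ℤ) (q : ℕ)
    (hq : Nat.Coprime q M) (H : ℕ) :
    |∑ j ∈ range H, ((jacobiSym (a + q * j) M : ℤ) : ℝ)| ≤
      8 * Real.sqrt M * (1 + Real.log M) := by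
  obtain ⟨u, w, hu⟩ : ∃ u w : ℤ, (q : ℤ) * u - 1 = M * w := by
    obtain ⟨u, v, huv⟩ := Nat.isCoprime_iff_coprime.2 hq
    exact ⟨u, -v, by linarith⟩
  have hM0 : (M : ℤ) ≠ 0 := by
    have : M ≠ 0 := by omega
    exact_mod_cast this
  set c : ℕ := ((u * a - 1) % M).toNat with hc
  have hc' : (c : ℤ) = (u * a - 1) % M := Int.toNat_of_nonneg (Int.emod_nonneg _ hM0)
  have hc'' : (c : ℤ) = (u * a - 1) - M * ((u * a - 1) / M) := by
    rw [hc']
    have := Int.emod_add_mul_ediv (u * a - 1) M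
    linarith
  have hterm : ∀ j : ℕ, jacobiSym (a + q * j) M =
      jacobiSym q M * jacobiSym ((c + 1 + j : ℕ) : ℤ) M := by
    intro j
    rw [← jacobiSym.mul_left]
    apply jacobiSym.mod_left'
    show (a + q * j) ≡ (q * ((c + 1 + j : ℕ) : ℤ)) [ZMOD M]
    rw [Int.modEq_iff_dvd]
    refine ⟨w * a - q * ((u * a - 1) / M), ?_⟩
    push_cast
    rw [hc'']
    linear_combination a * hu
  have h1 : ∑ j ∈ range H, ((jacobiSym (a + q * j) M : ℤ) : ℝ) =
      ((jacobiSym q M : ℤ) : ℝ) * ∑ n ∈ Ioc c (c + H), ((jacobiSym (n : ℤ) M : ℤ) : ℝ) := by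
    have h2 : Ioc c (c + H) = Ico (c + 1) (c + 1 + H) := by
      ext z
      simp only [mem_Ioc, mem_Ico]
      omega
    rw [h2, sum_Ico_eq_sum_range, mul_sum, Nat.add_sub_cancel_left]
    refine sum_congr rfl fun j _ => ?_
    rw [hterm j]
    push_cast
    rfl
  rw [h1, abs_mul]
  have h6 := jac_abs_le (q : ℤ) M
  have h7 := jac_Ioc M hM hne c H
  calc _ ≤ 1 * (8 * Real.sqrt M * (1 + Real.log M)) :=
        mul_le_mul h6 h7 (abs_nonneg _) zero_le_one
    _ = _ := one_mul _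

theorem momG {ι : Type} [Fintype ι] [DecidableEq ι] {m y : ℕ} {f : ι → Fin m → ℕ}
    (hf : Fam f y) (hy : 1 ≤ y) (a : ℤ) (q : ℕ) (hq : ∀ i j, ¬ f i j ∣ q) (H : ℕ) :
    ∑ n ∈ range H, BP f (a + q * n) ^ 2 ≤
      (H : ℝ) * (m : ℝ) ^ Fintype.card ι + ((m : ℝ) ^ Fintype.card ι) ^ 2 *
        (8 * (y : ℝ) ^ Fintype.card ι * (1 + 2 * Fintype.card ι * Real.log y)) := by
  classical
  set k := Fintype.card ι with hk
  set E : ℝ := 8 * (y : ℝ) ^ k * (1 + 2 * k * Real.log y) with hE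
  have hlogy : 0 ≤ Real.log y := Real.log_natCast_nonneg y
  have hE0 : 0 ≤ E := by positivity
  have h1 : ∀ n : ℕ, BP f (a + q * n) ^ 2 = ∑ g : ι → Fin m, ∑ g' : ι → Fin m,
      ((jacobiSym (a + q * n) (sg f g * sg f g') : ℤ) : ℝ) := by
    intro n
    rw [BP_eq hf, sq, Finset.sum_mul_sum]
    refine sum_congr rfl fun g _ => sum_congr rfl fun g' _ => ?_
    rw [jacobiSym.mul_right' _ (sg_pos hf g).ne' (sg_pos hf g').ne']
    push_cast
    rfl
  simp_rw [h1]
  rw [sum_comm]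
  have hcard : ((univ : Finset (ι → Fin m)).card : ℝ) = (m : ℝ) ^ k := by
    rw [card_univ, Fintype.card_fun, Fintype.card_fin]
    push_cast
    rfl
  have hcop : ∀ g : ι → Fin m, Nat.Coprime q (sg f g) := by
    intro g
    unfold sg
    apply Nat.Coprime.prod_right
    intro i _
    exact ((Nat.Prime.coprime_iff_not_dvd (hf.pr _ _)).2 (hq _ _)).symm
  have h2 : ∀ g g' : ι → Fin m, ∑ n ∈ range H,
      ((jacobiSym (a + q * n) (sg f g * sg f g') : ℤ) : ℝ) ≤ (if g = g' then (H : ℝ) else 0) + E := by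
    intro g g'
    split_ifs with h
    · refine le_trans (b := (H : ℝ)) ?_ (by linarith)
      calc ∑ n ∈ range H, ((jacobiSym (a + q * n) (sg f g * sg f g') : ℤ) : ℝ) ≤
          ∑ _n ∈ range H, (1 : ℝ) :=
            sum_le_sum fun n _ => (le_abs_self _).trans (jac_abs_le _ _)
        _ = H := by simp
    · rw [zero_add]
      have hne : sg f g ≠ sg f g' := fun h' => h (sg_inj hf h')
      have hex := Pool.Agent.H379R2.W.exists_neg_one (sg_sqf hf g) (sg_sqf hf g') (sg_odd hf g)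
        (sg_odd hf g') hne
      have hM2 : 2 ≤ sg f g * sg f g' := by
        have a1 := sg_pos hf g
        have a2 := sg_pos hf g'
        rcases Nat.lt_or_gt_of_ne hne with h' | h'
        · exact le_trans (by omega) (Nat.le_mul_of_pos_left _ a1)
        · exact le_trans (by omega) (Nat.le_mul_of_pos_right _ a2)
      have h3 := jac_AP _ hM2 hex a q (Nat.Coprime.mul_right (hcop g) (hcop g')) H
      refine (le_abs_self _).trans (h3.trans ?_)
      have hMle : ((sg f g * sg f g' : ℕ) : ℝ) ≤ ((y : ℝ) ^ k) ^ 2 := by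
        have := Nat.mul_le_mul (sg_le hf g) (sg_le hf g')
        rw [← hk] at this
        rw [sq]
        exact_mod_cast this
      have hM0 : (0 : ℝ) < ((sg f g * sg f g' : ℕ) : ℝ) := by
        exact_mod_cast Nat.mul_pos (sg_pos hf g) (sg_pos hf g')
      have h4 : Real.sqrt ((sg f g * sg f g' : ℕ) : ℝ) ≤ (y : ℝ) ^ k := by
        rw [Real.sqrt_le_left (by positivity)]
        exact hMle
      have h5 : Real.log ((sg f g * sg f g' : ℕ) : ℝ) ≤ 2 * k * Real.log y := by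
        have := Real.log_le_log hM0 hMle
        rw [Real.log_pow, Real.log_pow] at this
        push_cast at this ⊢
        linarith
      have h6 : 0 ≤ Real.log ((sg f g * sg f g' : ℕ) : ℝ) := Real.log_natCast_nonneg _
      rw [hE]
      have h7 : 8 * Real.sqrt ((sg f g * sg f g' : ℕ) : ℝ) ≤ 8 * (y : ℝ) ^ k := by linarith
      exact mul_le_mul h7 (by linarith) (by linarith) (by positivity)
  calc ∑ g : ι → Fin m, ∑ n ∈ range H, ∑ g' : ι → Fin m,
        ((jacobiSym (a + q * n) (sg f g * sg f g') : ℤ) : ℝ)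
      = ∑ g : ι → Fin m, ∑ g' : ι → Fin m, ∑ n ∈ range H,
        ((jacobiSym (a + q * n) (sg f g * sg f g') : ℤ) : ℝ) :=
        sum_congr rfl fun g _ => sum_comm
    _ ≤ ∑ g : ι → Fin m, ∑ g' : ι → Fin m, ((if g = g' then (H : ℝ) else 0) + E) :=
        sum_le_sum fun g _ => sum_le_sum fun g' _ => h2 g g'
    _ = ∑ _g : ι → Fin m, ((H : ℝ) + (m : ℝ) ^ k * E) := by
        refine sum_congr rfl fun g _ => ?_
        rw [sum_add_distrib, sum_ite_eq, if_pos (mem_univ g), sum_const, nsmul_eq_mul, hcard]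
    _ = (m : ℝ) ^ k * ((H : ℝ) + (m : ℝ) ^ k * E) := by
        rw [sum_const, nsmul_eq_mul, hcard]
    _ = _ := by ring

/-- the primes can be distributed into `K` blocks of `m` primes -/
theorem fam_of_set' (PP : Finset ℕ) (y : ℕ) (hpr : ∀ p ∈ PP, p.Prime) (hodd : ∀ p ∈ PP, p ≠ 2)
    (hle : ∀ p ∈ PP, p ≤ y) (K m : ℕ) (hKm : K * m ≤ PP.card) :
    ∃ f : Fin K → Fin m → ℕ, Fam f y ∧ (∀ i j, f i j ∈ PP) ∧ ∀ a : ℕ → ℝ, (∀ p, |a p| ≤ 1) →
      |∑ p ∈ PP, a p| ≤ |∑ i, ∑ j, a (f i j)| + (PP.card - K * m) := by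
  classical
  let e := PP.orderEmbOfFin rfl
  let F : Fin K × Fin m → ℕ := fun q => e (Fin.castLE hKm (finProdFinEquiv q))
  have hFmem : ∀ q, F q ∈ PP := fun q => PP.orderEmbOfFin_mem rfl _
  have hFinj : Function.Injective F := by
    intro q q' h
    have h1 := e.injective h
    have h2 := Fin.castLE_injective hKm h1
    exact finProdFinEquiv.injective h2
  refine ⟨fun i j => F (i, j), ⟨fun i j => hpr _ (hFmem _), fun i j => hodd _ (hFmem _),
    fun i j => hle _ (hFmem _), fun i j i' j' h => ?_⟩, fun i j => hFmem _, ?_⟩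
  · have := hFinj h
    simpa using this
  · intro a ha
    have h1 : ∑ i, ∑ j, a (F (i, j)) = ∑ p ∈ univ.image F, a p := by
      rw [Finset.sum_image (fun q _ q' _ h => hFinj h), ← Finset.univ_product_univ,
        Finset.sum_product]
    have hsub : univ.image F ⊆ PP := by
      intro p hp
      obtain ⟨q, _, rfl⟩ := mem_image.1 hp
      exact hFmem q
    have hcard : (univ.image F).card = K * m := by
      rw [card_image_of_injective _ hFinj, card_univ, Fintype.card_prod, Fintype.card_fin,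
        Fintype.card_fin]
    rw [h1, ← Finset.sum_sdiff hsub, add_comm]
    refine (abs_add_le _ _).trans ?_
    gcongr
    refine (abs_sum_le_sum_abs _ _).trans ?_
    calc ∑ p ∈ PP \ univ.image F, |a p| ≤ ∑ _p ∈ PP \ univ.image F, (1 : ℝ) :=
          sum_le_sum fun p _ => ha p
      _ = ((PP \ univ.image F).card : ℝ) := by simp
      _ = (PP.card : ℝ) - K * m := by
          rw [card_sdiff_of_subset hsub, hcard, Nat.cast_sub hKm]
          push_cast
          ring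

/-- **Main count in an arithmetic progression.** -/
theorem mainG (PP : Finset ℕ) (y : ℕ) (hy : 1 ≤ y) (hpr : ∀ p ∈ PP, p.Prime)
    (hodd : ∀ p ∈ PP, p ≠ 2) (hle : ∀ p ∈ PP, p ≤ y) (ε : ℝ) (hε : 0 < ε) (K m k : ℕ) (hm : 0 < m)
    (hKm : K * m ≤ PP.card) (hrest : (PP.card : ℝ) - K * m ≤ ε / 2 * PP.card)
    (hk : (k : ℝ) ≤ ε / 4 * K) (a : ℤ) (q : ℕ) (hq : ∀ p ∈ PP, ¬ p ∣ q) (H : ℕ) (D : Finset ℕ)
    (hDs : D ⊆ range H)
    (hD : ∀ n ∈ D, ε * PP.card ≤ |∑ p ∈ PP, ((jacobiSym (a + q * n) p : ℤ) : ℝ)|) :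
    (D.card : ℝ) * ((ε / 4 * m) ^ k) ^ 2 ≤ 2 ^ K * ((H : ℝ) * (m : ℝ) ^ k +
      ((m : ℝ) ^ k) ^ 2 * (8 * (y : ℝ) ^ k * (1 + 2 * k * Real.log y))) := by
  classical
  obtain ⟨f, hf, hmem, hsum⟩ := fam_of_set' PP y hpr hodd hle K m hKm
  have hlogy : 0 ≤ Real.log y := Real.log_natCast_nonneg y
  have key := count_le hm f D (fun n => a + q * (n : ℤ)) (ε / 2) (by positivity) k
    (by rw [show ε / 2 / 2 = ε / 4 by ring]; exact hk) (by
      intro n hn
      have h1 := hD n hn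
      have h2 := hsum (fun p => ((jacobiSym (a + q * (n : ℤ)) p : ℤ) : ℝ))
        (fun p => jac_abs_le _ _)
      have h3 : (K : ℝ) * m ≤ PP.card := by exact_mod_cast hKm
      have h4 : ε / 2 * ((K : ℝ) * m) ≤ ε / 2 * PP.card :=
        mul_le_mul_of_nonneg_left h3 (by positivity)
      show ε / 2 * (K * m) ≤ |∑ i, ∑ j, ((jacobiSym (a + q * (n : ℤ)) (f i j) : ℤ) : ℝ)|
      linarith) ((H : ℝ) * (m : ℝ) ^ k +
      ((m : ℝ) ^ k) ^ 2 * (8 * (y : ℝ) ^ k * (1 + 2 * k * Real.log y))) (by positivity)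
      (fun I hI => by
      have h1 := momG (hf.restrict I) hy a q (fun i j => hq _ (hmem _ _)) H
      rw [Fintype.card_coe, hI] at h1
      refine le_trans ?_ h1
      simp_rw [prod_SS]
      exact sum_le_sum_of_subset_of_nonneg hDs fun n _ _ => sq_nonneg _)
  rw [show ε / 2 / 2 = ε / 4 by ring] at key
  exact key

end Pool.Agent.H568.TQ
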