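import Pool.Agent.H568.TQ.AP

set_option autoImplicit false

/-! # The number of exceptional terms of an arithmetic progression -/

namespace Pool.Agent.H568.TQ

open Finset Filter Real Pool.Agent.H568.SP

theorem finG {A δ ε t : ℝ} (hA : 3 / 2 ≤ A) (hδ : 0 < δ) (hδ1 : δ ≤ 1) (hδA : 3 * δ < A - 1)
    (hε : 0 < ε) (hε1 : ε ≤ 1) (hg : Good A 0 δ ε t)
    (hbig : 2 * t ^ (A - 1) + 16 + 32 * (A + 1) * t ≤ t ^ (A + 1))
    (PP : Finset ℕ) (y : ℕ) (hy1 : 1 ≤ y) (hpr : ∀ p ∈ PP, p.Prime)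
    (hodd : ∀ p ∈ PP, p ≠ 2) (hle : ∀ p ∈ PP, p ≤ y) (hyt : (y : ℝ) ≤ t ^ (A + δ))
    (hPlo : t ^ (A - δ) ≤ (PP.card : ℝ)) (a : ℤ) (q : ℕ) (hq : ∀ p ∈ PP, ¬ p ∣ q)
    (H : ℕ) (hH : 1 ≤ H) (hHt : log H ≤ 2 * t) (D : Finset ℕ) (hDs : D ⊆ range H)
    (hD : ∀ n ∈ D, ε * PP.card ≤ |∑ p ∈ PP, ((jacobiSym (a + q * n) p : ℤ) : ℝ)|) :
    (D.card : ℝ) ≤ (H : ℝ) ^ (A / (2 * A - 1) + 3 * δ) * t ^ (A + 1) := by
  have ht1 := hg.t1
  have hlt1 := hg.lt1
  have ht0 : 0 < t := by linarith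
  have hH' : (1 : ℝ) ≤ H := by exact_mod_cast hH
  have hH0 : (0 : ℝ) < H := by linarith
  have hc : (0 : ℝ) < 2 * A - 1 := by linarith
  set w : ℝ := (H : ℝ) ^ (1 / (2 * A - 1)) with hw
  have hw1 : 1 ≤ w := one_le_rpow hH' (by positivity)
  have hw0 : 0 < w := by linarith
  have hlogw0 : 0 ≤ log w := log_nonneg hw1
  have hHw : (H : ℝ) = w ^ (2 * A - 1) := by
    rw [hw, ← rpow_mul hH0.le]
    have : 1 / (2 * A - 1) * (2 * A - 1) = 1 := by field_simp
    rw [this, rpow_one]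
  have hlogwt : log w ≤ t := by
    rw [hw, log_rpow hH0]
    have h1 : 0 ≤ log (H : ℝ) := log_nonneg hH'
    have h2 : 1 / (2 * A - 1) ≤ 1 / 2 := by
      apply one_div_le_one_div_of_le (by norm_num)
      linarith
    nlinarith
  set k := ⌊log w / log t⌋₊ with hk
  have hlogt0 : 0 < log t := by linarith
  have hk1 : (k : ℝ) * log t ≤ log w := by
    have := Nat.floor_le (show 0 ≤ log w / log t by positivity)
    rw [le_div_iff₀ hlogt0] at this
    exact this
  have hk2 : log w < (k + 1) * log t := by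
    have := Nat.lt_floor_add_one (log w / log t)
    rw [div_lt_iff₀ hlogt0] at this
    exact this
  have hu : t ^ k ≤ w := by
    rw [← log_le_log_iff (by positivity) hw0, log_pow]
    exact hk1
  have hut : w < t ^ k * t := by
    rw [← pow_succ, ← log_lt_log_iff hw0 (by positivity), log_pow]
    push_cast
    exact hk2
  have hfinal : w ^ (A + 3 * δ) ≤ (H : ℝ) ^ (A / (2 * A - 1) + 3 * δ) := by
    rw [hw, ← rpow_mul hH0.le]
    apply rpow_le_rpow_of_exponent_le hH'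
    have h1 : 1 / (2 * A - 1) * (A + 3 * δ) = A / (2 * A - 1) + 3 * δ * (1 / (2 * A - 1)) := by
      field_simp
    rw [h1]
    have h2 : 1 / (2 * A - 1) ≤ 1 := by rw [div_le_one hc]; linarith
    nlinarith
  have hwA0 : 0 ≤ w ^ (A + 3 * δ) := by positivity
  have htA0 : 0 ≤ t ^ (A + 1) := by positivity
  rcases Nat.eq_zero_or_pos k with hk0 | hk0
  · -- short intervals
    have h1 : (D.card : ℝ) ≤ H := by
      have := card_le_card hDs
      rw [card_range] at this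
      exact_mod_cast this
    rw [hk0, pow_zero, one_mul] at hut
    have h2 : (H : ℝ) = w ^ A * w ^ (A - 1) := by
      rw [hHw, ← rpow_add hw0]
      congr 1
      ring
    have h3 : w ^ (A - 1) ≤ t ^ (A - 1) := rpow_le_rpow hw0.le hut.le (by linarith)
    have h4 : w ^ A ≤ w ^ (A + 3 * δ) := rpow_le_rpow_of_exponent_le hw1 (by linarith)
    have h5 : t ^ (A - 1) ≤ t ^ (A + 1) := rpow_le_rpow_of_exponent_le ht1 (by linarith)
    calc (D.card : ℝ) ≤ w ^ A * w ^ (A - 1) := by rw [← h2]; exact h1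
      _ ≤ w ^ (A + 3 * δ) * t ^ (A + 1) :=
          mul_le_mul h4 (h3.trans h5) (by positivity) (by positivity)
      _ ≤ _ := mul_le_mul_of_nonneg_right hfinal htA0
  · set P := PP.card with hP
    have hkt : (k : ℝ) ≤ t := by
      have h1 : (k : ℝ) * 1 ≤ k * log t := mul_le_mul_of_nonneg_left hlt1 (Nat.cast_nonneg _)
      linarith
    obtain ⟨K, m, hm, hKm, hrest, hkK, hmt, h2K⟩ := params hg hε hε1 k hk0 hkt P hPlo
    have key := mainG PP y hy1 hpr hodd hle ε hε K m k hm hKm hrest hkK a q hq H D hDs hD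
    have hlogy : 0 ≤ log (y : ℝ) := log_natCast_nonneg y
    have hy0 : (0 : ℝ) < y := by exact_mod_cast hy1
    have h1 := reduceA (A := A) ht0 hε hg.G K m k hm hmt h2K (D.card : ℝ) H
      (8 * (y : ℝ) ^ k * (1 + 2 * k * log y)) hH0.le (by positivity) key
    set u : ℝ := t ^ k with hu_def
    have hu0 : 0 < u := by positivity
    have hexp : 0 ≤ A - 1 - 3 * δ := by linarith
    have h2 : u ^ (-(A - 1 - 3 * δ)) ≤ w ^ (-(A - 1 - 3 * δ)) * t ^ (A - 1) := by
      have h3 : w / t ≤ u := by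
        rw [div_le_iff₀ ht0]
        exact hut.le
      have h4 : u ^ (-(A - 1 - 3 * δ)) ≤ (w / t) ^ (-(A - 1 - 3 * δ)) :=
        rpow_le_rpow_of_nonpos (by positivity) h3 (by linarith)
      refine h4.trans ?_
      rw [div_rpow hw0.le ht0.le, div_eq_mul_inv, ← rpow_neg ht0.le, neg_neg]
      refine mul_le_mul_of_nonneg_left ?_ (by positivity)
      exact rpow_le_rpow_of_exponent_le ht1 (by linarith)
    have h5 : (H : ℝ) * u ^ (-(A - 1 - 3 * δ)) ≤ w ^ (A + 3 * δ) * t ^ (A - 1) := by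
      calc (H : ℝ) * u ^ (-(A - 1 - 3 * δ)) ≤
          (H : ℝ) * (w ^ (-(A - 1 - 3 * δ)) * t ^ (A - 1)) :=
            mul_le_mul_of_nonneg_left h2 hH0.le
        _ = (w ^ (2 * A - 1) * w ^ (-(A - 1 - 3 * δ))) * t ^ (A - 1) := by rw [← hHw]; ring
        _ = w ^ (A + 3 * δ) * t ^ (A - 1) := by
            rw [← rpow_add hw0]
            congr 2
            ring
    have h6 : (y : ℝ) ^ k ≤ u ^ (A + δ) := by
      have e3 : u ^ (A + δ) = (t ^ (A + δ)) ^ k := by
        rw [hu_def, ← rpow_natCast (t ^ (A + δ)) k, ← rpow_mul ht0.le, ← rpow_natCast t k,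
          ← rpow_mul ht0.le, mul_comm (k : ℝ)]
      rw [e3]
      exact pow_le_pow_left₀ hy0.le hyt k
    have h7 : 2 * (k : ℝ) * log y ≤ 2 * (A + 1) * t := by
      have h8 : log (y : ℝ) ≤ (A + δ) * log t := by
        have := log_le_log hy0 hyt
        rwa [log_rpow ht0] at this
      have h9 : (k : ℝ) * log y ≤ k * ((A + δ) * log t) :=
        mul_le_mul_of_nonneg_left h8 (Nat.cast_nonneg _)
      have h10 : (k : ℝ) * log t ≤ t := by linarith
      have h11 : (A + δ) * ((k : ℝ) * log t) ≤ (A + 1) * t :=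
        mul_le_mul (by linarith) h10 (by positivity) (by linarith)
      nlinarith
    have h12 : u ^ δ * (8 * (y : ℝ) ^ k * (1 + 2 * k * log y)) ≤
        w ^ (A + 3 * δ) * (8 * (1 + 2 * (A + 1) * t)) := by
      have h13 : u ^ δ * (y : ℝ) ^ k ≤ w ^ (A + 3 * δ) := by
        calc u ^ δ * (y : ℝ) ^ k ≤ u ^ δ * u ^ (A + δ) :=
              mul_le_mul_of_nonneg_left h6 (by positivity)
          _ = u ^ (A + 2 * δ) := by
              rw [← rpow_add hu0]
              congr 1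
              ring
          _ ≤ w ^ (A + 2 * δ) := rpow_le_rpow hu0.le hu (by linarith)
          _ ≤ w ^ (A + 3 * δ) := rpow_le_rpow_of_exponent_le hw1 (by linarith)
      calc u ^ δ * (8 * (y : ℝ) ^ k * (1 + 2 * k * log y)) =
          (u ^ δ * (y : ℝ) ^ k) * (8 * (1 + 2 * k * log y)) := by ring
        _ ≤ w ^ (A + 3 * δ) * (8 * (1 + 2 * (A + 1) * t)) :=
            mul_le_mul h13 (by linarith) (by positivity) (by positivity)
    calc (D.card : ℝ) ≤ 2 * (w ^ (A + 3 * δ) * t ^ (A - 1) +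
          w ^ (A + 3 * δ) * (8 * (1 + 2 * (A + 1) * t))) := by
            refine h1.trans ?_
            linarith
      _ = w ^ (A + 3 * δ) * (2 * t ^ (A - 1) + 16 + 32 * (A + 1) * t) := by ring
      _ ≤ w ^ (A + 3 * δ) * t ^ (A + 1) := mul_le_mul_of_nonneg_left hbig (by positivity)
      _ ≤ _ := mul_le_mul_of_nonneg_right hfinal htA0

/-- the number of symbols equal to `1` -/
theorem card_one (PP : Finset ℕ) (hpr : ∀ p ∈ PP, p.Prime) (d : ℤ)
    (h : |∑ p ∈ PP, ((jacobiSym d p : ℤ) : ℝ)| < 1 / 4 * PP.card) :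
    3 / 8 * (PP.card : ℝ) - (PP.filter fun p : ℕ => (p : ℤ) ∣ d).card ≤
      ((PP.filter fun p : ℕ => ¬ (p : ℤ) ∣ d ∧ jacobiSym d p = 1).card : ℝ) := by
  have h1 : ∀ p ∈ PP, -((jacobiSym d p : ℤ) : ℝ) ≥
      1 - 2 * (if ¬ (p : ℤ) ∣ d ∧ jacobiSym d p = 1 then (1 : ℝ) else 0) -
        2 * (if (p : ℤ) ∣ d then (1 : ℝ) else 0) := by
    intro p hp
    haveI : NeZero p := ⟨(hpr p hp).ne_zero⟩
    have hpp := hpr p hp
    by_cases hd : (p : ℤ) ∣ d
    · rw [if_pos hd, if_neg (fun h => h.1 hd)]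
      have := (abs_le.1 (jac_abs_le d p)).2
      linarith
    · rw [if_neg hd]
      rcases jacobiSym.trichotomy d p with h2 | h2 | h2
      · exfalso
        rw [jacobiSym.eq_zero_iff_not_coprime] at h2
        apply h2
        rw [Int.gcd_comm]
        have hpz : Prime (p : ℤ) := Nat.prime_iff_prime_int.1 hpp
        exact Int.isCoprime_iff_gcd_eq_one.1 ((Prime.coprime_iff_not_dvd hpz).2 hd)
      · rw [if_pos ⟨hd, h2⟩, h2]
        norm_num
      · rw [if_neg (fun h => by rw [h2] at h; norm_num at h), h2]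
        norm_num
  have h2 := sum_le_sum h1
  rw [sum_sub_distrib, sum_sub_distrib, ← mul_sum, ← mul_sum, sum_boole, sum_boole, sum_const,
    nsmul_eq_mul, mul_one, sum_neg_distrib] at h2
  have h3 := (abs_lt.1 h).1
  linarith

theorem ev_big (A : ℝ) : ∀ᶠ t : ℝ in atTop,
    2 * t ^ (A - 1) + 16 + 32 * (A + 1) * t ≤ t ^ (A + 1) ∨ A ≤ 0 := by
  by_cases hA : A ≤ 0
  · exact Eventually.of_forall fun _ => Or.inr hA
  push Not at hA
  have b1 := ev_rpow_le 6 (A - 1) (A + 1) (by linarith)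
  have b2 := ev_rpow_le 48 0 (A + 1) (by linarith)
  have b3 := ev_rpow_le (96 * (A + 1)) 1 (A + 1) (by linarith)
  filter_upwards [b1, b2, b3] with t c1 c2 c3
  left
  rw [rpow_zero] at c2
  rw [rpow_one] at c3
  linarith

end Pool.Agent.H568.TQ
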