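import Pool.Agent.W171.LT.LTC
import Pool.Agent.W829.LT.LTA
import Pool.Agent.W971.LT.LTG
import Pool.Agent.H568.TS.Pt

set_option autoImplicit false

/-! # Split primes and torsion in class groups of imaginary quadratic fields -/

namespace Pool.Agent.H568.TQ

open NumberField Finset Pool.Agent.TH847.LS Pool.Agent.W627.LT
open scoped Classical nonZeroDivisors

variable {K : Type} [Field K] [NumberField K]

/-- an odd prime which does not divide the discriminant is not ramified -/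
theorem split_ne (h2 : Module.finrank ℚ K = 2) {p : ℕ} (hp : p.Prime) (hp2 : p ≠ 2)
    (hd : ¬ (p : ℤ) ∣ discr K) {P : Ideal (𝓞 K)} (hP : Ideal.absNorm P = p)
    (hPP : P * P = Ideal.span {((p : ℕ) : 𝓞 K)}) : False := by
  have hp0 : ((p : ℕ) : 𝓞 K) ≠ 0 := Nat.cast_ne_zero.2 hp.ne_zero
  have hodd : ∃ a b : ℤ, 2 * a + p * b = 1 := by
    have := hp.eq_two_or_odd.resolve_left hp2
    exact ⟨-((p : ℤ) / 2), 1, by omega⟩
  obtain ⟨a, b, hab⟩ := hodd
  have habK : 2 * (a : 𝓞 K) + ((p : ℕ) : 𝓞 K) * (b : 𝓞 K) = 1 := by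
    have := congrArg (fun x : ℤ => (x : 𝓞 K)) hab
    push_cast at this
    exact this
  set I := Ideal.span {((p : ℕ) : 𝓞 K)} with hI
  have hmem : ∀ x : 𝓞 K, x ∈ I ↔ ((p : ℕ) : 𝓞 K) ∣ x := fun x => Ideal.mem_span_singleton
  have hne : ∃ β ∈ P, β ∉ I := by
    by_contra h
    push Not at h
    have hle : P ≤ I := h
    have hge : I ≤ P := by rw [← hPP]; exact Ideal.mul_le_right
    have h3 := congrArg Ideal.absNorm (le_antisymm hle hge)
    rw [hP, hI, Ideal.absNorm_span_natCast, RingOfIntegers.rank, h2] at h3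
    have := hp.one_lt
    nlinarith
  obtain ⟨β, hβP, hβ⟩ := hne
  -- `β` is not rational
  have hint : ∀ n : ℤ, (n : 𝓞 K) ∈ P → (p : ℤ) ∣ n := by
    intro n hn
    have h3 : P ∣ Ideal.span {(n : 𝓞 K)} := by
      rw [Ideal.dvd_iff_le, Ideal.span_le, Set.singleton_subset_iff]
      exact hn
    have h4 := map_dvd Ideal.absNorm h3
    rw [hP, Ideal.absNorm_span_singleton, norm_int h2, Int.natAbs_pow] at h4
    exact Int.natCast_dvd.2 (hp.dvd_of_dvd_pow h4)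
  have hnot : ∀ n : ℤ, β ≠ (n : 𝓞 K) := by
    rintro n rfl
    apply hβ
    rw [hmem]
    obtain ⟨c, hc⟩ := hint n hβP
    exact ⟨(c : 𝓞 K), by rw [hc]; push_cast; ring⟩
  obtain ⟨t, m, hm, e1, e2⟩ := quad_eq h2 β hnot
  set n := Algebra.norm ℤ β with hn
  -- the norm of `β` is divisible by `p`
  have hpn : (p : ℤ) ∣ n := by
    have h3 : P ∣ Ideal.span {β} := by
      rw [Ideal.dvd_iff_le, Ideal.span_le, Set.singleton_subset_iff]
      exact hβP
    have h4 := map_dvd Ideal.absNorm h3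
    rw [hP, Ideal.absNorm_span_singleton] at h4
    exact Int.natCast_dvd.2 h4
  -- `β ^ 2 = t β - n`
  have hsq : β ^ 2 = (t : 𝓞 K) * β - (n : 𝓞 K) := by
    have h4 : (4 : 𝓞 K) ≠ 0 := by norm_num
    apply mul_left_cancel₀ h4
    push_cast at e1
    linear_combination e1
  have hβ2 : β ^ 2 ∈ I := by
    rw [sq, ← hPP]
    exact Ideal.mul_mem_mul hβP hβP
  obtain ⟨n', hn'⟩ := hpn
  have htβ : (t : 𝓞 K) * β ∈ I := by
    have h3 : (t : 𝓞 K) * β = β ^ 2 + (n : 𝓞 K) := by rw [hsq]; ring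
    rw [h3]
    refine I.add_mem hβ2 ?_
    rw [hmem]
    exact ⟨(n' : 𝓞 K), by rw [hn']; push_cast; ring⟩
  have hpt : (p : ℤ) ∣ t := by
    by_contra hcon
    have hpz : Prime (p : ℤ) := Nat.prime_iff_prime_int.1 hp
    have hcop : IsCoprime (t : ℤ) (p : ℤ) := ((Prime.coprime_iff_not_dvd hpz).2 hcon).symm
    obtain ⟨u, v, huv⟩ := hcop
    apply hβ
    have huvK : (u : 𝓞 K) * (t : 𝓞 K) + (v : 𝓞 K) * ((p : ℕ) : 𝓞 K) = 1 := by
      have := congrArg (fun x : ℤ => (x : 𝓞 K)) huv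
      push_cast at this
      exact this
    have h3 : β = (u : 𝓞 K) * ((t : 𝓞 K) * β) + ((p : ℕ) : 𝓞 K) * ((v : 𝓞 K) * β) := by
      linear_combination -β * huvK
    rw [h3]
    refine I.add_mem (I.mul_mem_left _ htβ) ?_
    rw [hmem]
    exact Dvd.intro _ rfl
  have hpm : (p : ℤ) ∣ m := by
    have h3 : (p : ℤ) ∣ m ^ 2 * discr K := by
      rw [← e2, sq]
      exact dvd_sub (Dvd.dvd.mul_right hpt _) (Dvd.dvd.mul_left (Dvd.intro _ hn'.symm) _)
    have hpz : Prime (p : ℤ) := Nat.prime_iff_prime_int.1 hp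
    rcases hpz.dvd_or_dvd h3 with h4 | h4
    · exact hpz.dvd_of_dvd_pow h4
    · exact absurd h4 hd
  -- the element `(2 β - t) / p` is integral
  obtain ⟨m', hm'⟩ := hpm
  have hpK : ((p : ℕ) : K) ≠ 0 := Nat.cast_ne_zero.2 hp.ne_zero
  set γ : K := ((2 * β - (t : 𝓞 K) : 𝓞 K) : K) / ((p : ℕ) : K) with hγ
  have hγ2 : γ ^ 2 = ((m' ^ 2 * discr K : ℤ) : K) := by
    rw [hγ, div_pow, div_eq_iff (pow_ne_zero 2 hpK)]
    have h3 := congrArg (algebraMap (𝓞 K) K) e1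
    rw [map_pow, map_intCast, e2, hm'] at h3
    have h4 : ((2 * β - (t : 𝓞 K) : 𝓞 K) : K) ^ 2 = ((((p : ℤ) * m') ^ 2 * discr K : ℤ) : K) := h3
    rw [h4]
    push_cast
    ring
  have hγi : IsIntegral ℤ γ := by
    apply IsIntegral.of_pow (n := 2) (by norm_num)
    rw [hγ2]
    exact isIntegral_algebraMap (x := (m' ^ 2 * discr K : ℤ))
  set g : 𝓞 K := ⟨γ, hγi⟩ with hg
  have hgγ : 2 * β - (t : 𝓞 K) = ((p : ℕ) : 𝓞 K) * g := by
    apply RingOfIntegers.ext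
    show ((2 * β - (t : 𝓞 K) : 𝓞 K) : K) = algebraMap (𝓞 K) K (((p : ℕ) : 𝓞 K) * g)
    rw [map_mul, map_natCast]
    show ((2 * β - (t : 𝓞 K) : 𝓞 K) : K) = ((p : ℕ) : K) * γ
    rw [hγ]
    field_simp
  apply hβ
  obtain ⟨t', ht'⟩ := hpt
  rw [hmem]
  refine ⟨(a : 𝓞 K) * g + (a : 𝓞 K) * (t' : 𝓞 K) + (b : 𝓞 K) * β, ?_⟩
  have htK : (t : 𝓞 K) = ((p : ℕ) : 𝓞 K) * (t' : 𝓞 K) := by rw [ht']; push_cast; ring
  rw [htK] at hgγ
  linear_combination -β * habK + (a : 𝓞 K) * hgγ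

/-- **Split primes and torsion**: `k`-element sets of split primes -/
theorem negM (h2 : Module.finrank ℚ K = 2) (hd : discr K < 0) (y k l : ℕ) (hl : 1 ≤ l)
    (S : Finset ℕ) (hS : ∀ p ∈ S, p.Prime ∧ p ≠ 2 ∧ p ≤ y ∧ jacobiSym (discr K) p = 1)
    (hlt : 4 * (y ^ (2 * k)) ^ l < (discr K).natAbs) :
    tor K l * S.card.choose k ≤ Nat.card (ClassGroup (𝓞 K)) := by
  have hex : ∀ p : ℕ, ∃ P J : Ideal (𝓞 K), p ∈ S → (P ≠ J ∧ P.IsPrime ∧ J.IsPrime ∧
      Ideal.absNorm P = p ∧ Ideal.absNorm J = p ∧ P * J = Ideal.span {((p : ℕ) : 𝓞 K)}) := by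
    intro p
    by_cases hp : p ∈ S
    · obtain ⟨h1, h3, h4, h5⟩ := hS p hp
      obtain ⟨P, hP⟩ := TS.split_exists h2 h1 h3 h5
      obtain ⟨J, a, b, c, d⟩ := cofactor h2 h1 hP
      refine ⟨P, J, fun _ => ⟨?_, ?_, ?_, hP, b, a⟩⟩
      · rintro rfl
        refine split_ne h2 h1 h3 ?_ hP a
        intro hdv
        haveI : NeZero p := ⟨h1.ne_zero⟩
        have h6 : jacobiSym (discr K) p = 0 := by
          rw [jacobiSym.eq_zero_iff_not_coprime]
          intro hc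
          have h7 : (p : ℤ) ∣ (Int.gcd (discr K) p : ℤ) := Int.dvd_coe_gcd hdv dvd_rfl
          rw [hc] at h7
          have := hp
          have h8 : p ∣ 1 := by exact_mod_cast h7
          exact h1.one_lt.ne' (Nat.dvd_one.1 h8)
        rw [h6] at h5
        norm_num at h5
      · apply Ideal.isPrime_of_irreducible_absNorm
        rw [hP]
        exact h1
      · apply Ideal.isPrime_of_irreducible_absNorm
        rw [b]
        exact h1
    · exact ⟨⊥, ⊥, fun h => absurd h hp⟩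
  choose P J hPJ using hex
  have hP0 : ∀ p ∈ S, P p ≠ ⊥ := by
    intro p hp h0
    have h3 := (hPJ p hp).2.2.2.1
    rw [h0, Ideal.absNorm_bot] at h3
    exact (hS p hp).1.ne_zero h3.symm
  have hJ0 : ∀ p ∈ S, J p ≠ ⊥ := by
    intro p hp h0
    have h3 := (hPJ p hp).2.2.2.2.1
    rw [h0, Ideal.absNorm_bot] at h3
    exact (hS p hp).1.ne_zero h3.symm
  have hprod : ∀ s : {s // s ∈ S.powersetCard k}, ∃ Q : (Ideal (𝓞 K))⁰,
      (Q : Ideal (𝓞 K)) = ∏ p ∈ s.1, P p := by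
    intro s
    refine ⟨⟨∏ p ∈ s.1, P p, mem_nonZeroDivisors_of_ne_zero ?_⟩, rfl⟩
    rw [Finset.prod_ne_zero_iff]
    intro p hp
    exact hP0 p ((Finset.mem_powersetCard.mp s.2).1 hp)
  have hprod' : ∀ s : {s // s ∈ S.powersetCard k}, ∃ Q : (Ideal (𝓞 K))⁰,
      (Q : Ideal (𝓞 K)) = ∏ p ∈ s.1, J p := by
    intro s
    refine ⟨⟨∏ p ∈ s.1, J p, mem_nonZeroDivisors_of_ne_zero ?_⟩, rfl⟩
    rw [Finset.prod_ne_zero_iff]
    intro p hp
    exact hJ0 p ((Finset.mem_powersetCard.mp s.2).1 hp)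
  choose Q hQ using hprod
  choose R hR using hprod'
  have hQR : ∀ s, ClassGroup.mk0 (Q s) * ClassGroup.mk0 (R s) = 1 := by
    intro s
    rw [← map_mul, ClassGroup.mk0_eq_one_iff]
    refine ⟨⟨((∏ p ∈ s.1, p : ℕ) : 𝓞 K), ?_⟩⟩
    show (Q s : Ideal (𝓞 K)) * (R s : Ideal (𝓞 K)) = Ideal.span {((∏ p ∈ s.1, p : ℕ) : 𝓞 K)}
    rw [hQ, hR, ← Finset.prod_mul_distrib, Nat.cast_prod, ← Ideal.prod_span_singleton]
    exact Finset.prod_congr rfl fun p hp =>
      (hPJ p ((Finset.mem_powersetCard.mp s.2).1 hp)).2.2.2.2.2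
  -- no collisions
  have hcol : ∀ s t : {s // s ∈ S.powersetCard k},
      ClassGroup.mk0 (Q s) ^ l = ClassGroup.mk0 (Q t) ^ l → s = t := by
    intro s t h3
    have hsS := Finset.mem_powersetCard.mp s.2
    have htS := Finset.mem_powersetCard.mp t.2
    have h4 : ClassGroup.mk0 (Q t ^ l * R s ^ l) = 1 := by
      rw [map_mul, map_pow, map_pow, ← h3, ← mul_pow, hQR, one_pow]
    rw [ClassGroup.mk0_eq_one_iff] at h4
    obtain ⟨α, hα⟩ := h4.principal
    have hα' : (∏ p ∈ t.1, P p) ^ l * (∏ p ∈ s.1, J p) ^ l = Ideal.span {α} := by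
      have : (Q t : Ideal (𝓞 K)) ^ l * (R s : Ideal (𝓞 K)) ^ l = Ideal.span {α} := hα
      rwa [hQ, hR] at this
    have hn1 : Ideal.absNorm (∏ p ∈ t.1, P p) = ∏ p ∈ t.1, p := by
      rw [map_prod]
      exact Finset.prod_congr rfl fun p hp => (hPJ p (htS.1 hp)).2.2.2.1
    have hn2 : Ideal.absNorm (∏ p ∈ s.1, J p) = ∏ p ∈ s.1, p := by
      rw [map_prod]
      exact Finset.prod_congr rfl fun p hp => (hPJ p (hsS.1 hp)).2.2.2.2.1
    have h5 : (Algebra.norm ℤ α).natAbs = (∏ p ∈ t.1, p) ^ l * (∏ p ∈ s.1, p) ^ l := by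
      rw [← Ideal.absNorm_span_singleton, ← hα', map_mul, map_pow, map_pow, hn1, hn2]
    have h6 : (Algebra.norm ℤ α).natAbs ≤ (y ^ (2 * k)) ^ l := by
      rw [h5, ← mul_pow, two_mul, pow_add]
      apply Nat.pow_le_pow_left
      apply Nat.mul_le_mul
      · have e := Finset.prod_le_pow_card t.1 (fun p => p) y fun p hp => (hS p (htS.1 hp)).2.2.1
        rwa [htS.2] at e
      · have e := Finset.prod_le_pow_card s.1 (fun p => p) y fun p hp => (hS p (hsS.1 hp)).2.2.1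
        rwa [hsS.2] at e
    have h7 : 4 * |Algebra.norm ℤ α| < |discr K| := by
      rw [Int.abs_eq_natAbs, Int.abs_eq_natAbs]
      have : 4 * (Algebra.norm ℤ α).natAbs < (discr K).natAbs := by omega
      exact_mod_cast this
    obtain ⟨z, hz⟩ := int_of_small h2 hd h7
    rw [hz] at hα'
    have h8 := Pool.Agent.W171.LT.ltc K P J s.1 t.1 (fun p hp => by
      have hpS : p ∈ S := by
        rcases Finset.mem_union.1 hp with h | h
        · exact hsS.1 h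
        · exact htS.1 h
      exact ⟨(hS p hpS).1, hPJ p hpS⟩) l hl z hα'
    exact Subtype.ext h8
  -- counting
  set T := {c : ClassGroup (𝓞 K) // c ^ l = 1} with hT
  have hinj : Function.Injective (fun x : T × {s // s ∈ S.powersetCard k} =>
      x.1.1 * ClassGroup.mk0 (Q x.2)) := by
    rintro ⟨c, s⟩ ⟨c', t⟩ h
    have h' : c.1 * ClassGroup.mk0 (Q s) = c'.1 * ClassGroup.mk0 (Q t) := h
    have h3 := congrArg (fun x => x ^ l) h'
    simp only [mul_pow, c.2, c'.2, one_mul] at h3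
    have h4 := hcol s t h3
    rw [h4] at h'
    exact Prod.ext (Subtype.ext (mul_right_cancel h')) h4
  have h9 := Nat.card_le_card_of_injective _ hinj
  rw [Nat.card_prod, Nat.card_eq_fintype_card (α := {s // s ∈ S.powersetCard k}),
    Fintype.card_coe, Finset.card_powersetCard] at h9
  exact h9

/-- the odd primes up to `y` not dividing `d` modulo which `d` is a square -/
def SZ (y : ℕ) (d : ℤ) : Finset ℕ := (PQ y).filter (fun p => ¬ (p : ℤ) ∣ d ∧ jacobiSym d p = 1)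

/-- For every `l ≥ 1` the quadratic field of the square root of `d` has at most
`D ^ (1/2 - 1/(2l)) * X ^ ε` ideal classes killed by `l`, where `D` is the absolute value of its
discriminant. -/
def GoodZ (ε X : ℝ) (d : ℤ) : Prop := ∀ (K : Type) [Field K] [NumberField K],
  Module.finrank ℚ K = 2 → (∃ x : K, x ^ 2 = (d : K)) → ∀ l : ℕ, 1 ≤ l →
    (tor K l : ℝ) ≤ |(discr K : ℝ)| ^ (1 / 2 - 1 / (2 * l) : ℝ) * X ^ ε

/-- the discriminant of the field of the square root of a negative integer -/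
theorem disc_of_neg (h2 : Module.finrank ℚ K = 2) {d : ℤ} (hd : d < 0) {x : K}
    (hx : x ^ 2 = (d : K)) : ∃ m : ℤ, m ≠ 0 ∧ 4 * d = m ^ 2 * discr K := by
  have hxi : IsIntegral ℤ x := by
    apply IsIntegral.of_pow (n := 2) (by norm_num)
    rw [hx]
    exact isIntegral_algebraMap (x := d)
  set β : 𝓞 K := ⟨x, hxi⟩ with hβ
  have hβ2 : β ^ 2 = (d : 𝓞 K) := by
    apply RingOfIntegers.ext
    show algebraMap (𝓞 K) K (β ^ 2) = algebraMap (𝓞 K) K ((d : ℤ) : 𝓞 K)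
    rw [map_pow, map_intCast]
    exact hx
  have hnot : ∀ n : ℤ, β ≠ (n : 𝓞 K) := by
    intro n hn
    rw [hn] at hβ2
    have : n ^ 2 = d := by
      have h3 : ((n ^ 2 : ℤ) : 𝓞 K) = ((d : ℤ) : 𝓞 K) := by push_cast; exact hβ2
      exact_mod_cast h3
    nlinarith [sq_nonneg n]
  obtain ⟨t, m, hm, e1, e2⟩ := quad_eq h2 β hnot
  refine ⟨m, hm, ?_⟩
  rw [e2] at e1
  have ht : t = 0 := by
    by_contra ht
    have h3 : ((4 * t : ℤ) : 𝓞 K) * β = ((4 * d + t ^ 2 - m ^ 2 * discr K : ℤ) : 𝓞 K) := by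
      push_cast at e1 ⊢
      linear_combination -e1 + 4 * hβ2
    have h4 := congrArg (fun z => z ^ 2) h3
    simp only [mul_pow, hβ2] at h4
    have h5 : (4 * t) ^ 2 * d = (4 * d + t ^ 2 - m ^ 2 * discr K) ^ 2 := by exact_mod_cast h4
    have h6 : 0 < (4 * t) ^ 2 := by positivity
    have h7 : 0 ≤ (4 * d + t ^ 2 - m ^ 2 * discr K) ^ 2 := sq_nonneg _
    nlinarith
  rw [ht] at e1
  have h3 : ((4 * d : ℤ) : 𝓞 K) = ((m ^ 2 * discr K : ℤ) : 𝓞 K) := by
    push_cast at e1 ⊢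
    linear_combination e1 - 4 * hβ2
  exact_mod_cast h3

theorem negG (ε : ℝ) (hε : 0 < ε) : ∃ A0 : ℝ, 1 ≤ A0 ∧ ∀ A : ℝ, A0 ≤ A →
    ∃ X0 : ℝ, 3 ≤ X0 ∧ ∀ X : ℝ, X0 ≤ X → ∀ d : ℤ, d < 0 → |(d : ℝ)| ≤ X ^ 2 →
      (⌊Real.log X ^ A⌋₊ : ℝ) / (20 * Real.log ⌊Real.log X ^ A⌋₊) ≤
        ((SZ ⌊Real.log X ^ A⌋₊ d).card : ℝ) → GoodZ ε X d := by
  obtain ⟨C, hC, hcl⟩ := TS.class_number
  obtain ⟨A0, hA0, hA1⟩ := Pool.Agent.W829.LT.lta C ε hC hε
  refine ⟨A0, hA0, fun A hAA => ?_⟩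
  obtain ⟨X0, hX0, hA2⟩ := hA1 A hAA
  refine ⟨X0, hX0, fun X hX d hd hdX hcard => ?_⟩
  intro K _ _ h2 hx l hl
  obtain ⟨x, hx⟩ := hx
  obtain ⟨m, hm, hmd⟩ := disc_of_neg h2 hd hx
  have hm2 : 1 ≤ m ^ 2 := by
    have := Int.one_le_abs hm
    nlinarith [abs_nonneg m, sq_abs m]
  have hdneg : discr K < 0 := by
    by_contra h
    push Not at h
    have := mul_nonneg (sq_nonneg m) h
    omega
  set D := (discr K).natAbs with hD
  have hDz : ((D : ℕ) : ℤ) = -discr K := by rw [hD]; omega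
  have hDr : (D : ℝ) = |(discr K : ℝ)| := by
    have h3 : ((D : ℤ) : ℝ) = ((-discr K : ℤ) : ℝ) := by rw [hDz]
    have h4 : (discr K : ℝ) < 0 := by exact_mod_cast hdneg
    rw [abs_of_neg h4]
    push_cast at h3
    exact h3
  have hD2 : 2 < D := one_lt_discr h2
  have hDX : (D : ℝ) ≤ 4 * X ^ 2 := by
    have h3 : ((D : ℕ) : ℤ) ≤ 4 * |d| := by
      rw [hDz, abs_of_neg hd]
      nlinarith
    have h4 : (D : ℝ) ≤ 4 * |(d : ℝ)| := by exact_mod_cast h3
    linarith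
  have hT : (tor K l : ℝ) ≤ C * √(D : ℝ) * Real.log D := by
    refine le_trans ?_ (hcl K h2)
    exact_mod_cast Pool.Agent.W971.LT.tor_le K l
  rw [← hDr]
  refine hA2 X hX D (SZ ⌊Real.log X ^ A⌋₊ d).card l (tor K l) (by omega) hDX hl
    (Nat.cast_nonneg _) hT hcard ?_
  intro k hk
  refine le_trans ?_ (hcl K h2)
  have hlt : 4 * (⌊Real.log X ^ A⌋₊ ^ (2 * k)) ^ l < (discr K).natAbs := by
    have h3 : (1 : ℝ) ≤ Real.exp (l + 1) := Real.one_le_exp (by positivity)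
    have h4 : 4 * ((⌊Real.log X ^ A⌋₊ : ℝ) ^ (2 * k)) ^ l * 1 < (D : ℝ) := by
      refine lt_of_le_of_lt ?_ hk
      exact mul_le_mul_of_nonneg_left h3 (by positivity)
    rw [mul_one] at h4
    exact_mod_cast h4
  have := negM h2 hdneg ⌊Real.log X ^ A⌋₊ k l hl (SZ ⌊Real.log X ^ A⌋₊ d) (by
    intro p hp
    unfold SZ PQ at hp
    rw [Finset.mem_filter, Finset.mem_filter, Finset.mem_Icc] at hp
    obtain ⟨⟨⟨hp3, hpy⟩, hpp⟩, hpd, hj⟩ := hp
    refine ⟨hpp, by omega, hpy, ?_⟩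
    -- the Jacobi symbol
    have hpz : Prime (p : ℤ) := Nat.prime_iff_prime_int.1 hpp
    have hp2 : ¬ (p : ℤ) ∣ 2 := by
      intro h
      have : p ∣ 2 := by exact_mod_cast h
      have := Nat.le_of_dvd (by norm_num) this
      omega
    have hsq1 : ∀ u : ℤ, ¬ (p : ℤ) ∣ u → jacobiSym (u ^ 2) p = 1 := by
      intro u hu
      apply jacobiSym.sq_one'
      rw [Int.gcd_comm]
      exact Int.isCoprime_iff_gcd_eq_one.1 ((Prime.coprime_iff_not_dvd hpz).2 hu)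
    have hpm : ¬ (p : ℤ) ∣ m := by
      intro h
      have h3 : (p : ℤ) ∣ 4 * d := by
        rw [hmd, sq, mul_assoc]
        exact Dvd.dvd.mul_right h _
      rcases hpz.dvd_or_dvd h3 with h4 | h4
      · have : (p : ℤ) ∣ 2 * 2 := by norm_num; exact h4
        rcases hpz.dvd_or_dvd this with h5 | h5 <;> exact hp2 h5
      · exact hpd h4
    have h3 : jacobiSym (4 * d) p = jacobiSym (m ^ 2 * discr K) p := by rw [hmd]
    rw [jacobiSym.mul_left, jacobiSym.mul_left, hsq1 m hpm, hj, one_mul, mul_one,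
      show (4 : ℤ) = 2 ^ 2 by norm_num, hsq1 2 hp2] at h3
    exact h3.symm) hlt
  exact_mod_cast this

end Pool.Agent.H568.TQ
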