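import Pool.Agent.H568.TQ.FinG
import Pool.Agent.H568.TQ.Neg
import Pool.Agent.W627.LT.All

set_option autoImplicit false

/-! # Torsion of class groups of quadratic fields in arithmetic progressions -/

namespace Pool.Agent.H568.TQ

open Finset Filter NumberField Pool.Agent.H568.SP Pool.Agent.W627.LT
open scoped Classical

theorem goodZ_of_pos {ε X : ℝ} {d : ℤ} (hd : 0 < d) (h : Pool.Agent.W627.LT.Good ε X d.toNat) :
    GoodZ ε X d := by
  intro K _ _ h2 hx l hl
  refine h K h2 ?_ l hl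
  obtain ⟨x, hx⟩ := hx
  refine ⟨x, ?_⟩
  rw [hx]
  have h3 : ((d.toNat : ℕ) : ℤ) = d := Int.toNat_of_nonneg hd.le
  have h4 : (((d.toNat : ℕ) : ℤ) : K) = (d : K) := by rw [h3]
  rw [← h4, Int.cast_natCast]

theorem SZ_pos {y : ℕ} {d : ℤ} (hd : 0 < d) : SZ y d = SQ y d.toNat := by
  have h3 : ((d.toNat : ℕ) : ℤ) = d := Int.toNat_of_nonneg hd.le
  unfold SZ SQ
  apply Finset.filter_congr
  intro p _
  rw [h3]
  have : (p : ℤ) ∣ d ↔ p ∣ d.toNat := by
    rw [← Int.natCast_dvd_natCast, h3]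
  rw [this]

/-- the criterion for both signs -/
theorem crit (ε : ℝ) (hε : 0 < ε) : ∃ A0 : ℝ, ∀ A : ℝ, A0 ≤ A →
    ∃ X0 : ℝ, 3 ≤ X0 ∧ ∀ X : ℝ, X0 ≤ X → ∀ d : ℤ, ¬ IsSquare d → |(d : ℝ)| ≤ X ^ 2 →
      (⌊Real.log X ^ A⌋₊ : ℝ) / (20 * Real.log ⌊Real.log X ^ A⌋₊) ≤
        ((SZ ⌊Real.log X ^ A⌋₊ d).card : ℝ) → GoodZ ε X d := by
  obtain ⟨A1, _, h1⟩ := sG ε hε
  obtain ⟨A2, _, h2⟩ := negG ε hε
  refine ⟨max A1 A2, fun A hA => ?_⟩
  obtain ⟨X1, hX1, h3⟩ := h1 A ((le_max_left _ _).trans hA)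
  obtain ⟨X2, _, h4⟩ := h2 A ((le_max_right _ _).trans hA)
  refine ⟨max X1 X2, hX1.trans (le_max_left _ _), fun X hX d hsq hdX hc => ?_⟩
  rcases lt_trichotomy d 0 with hd | hd | hd
  · exact h4 X ((le_max_right _ _).trans hX) d hd hdX hc
  · exact absurd ⟨0, by rw [hd]; rfl⟩ hsq
  · apply goodZ_of_pos hd
    rw [SZ_pos hd] at hc
    have h5 : ((d.toNat : ℕ) : ℤ) = d := Int.toNat_of_nonneg hd.le
    refine h3 X ((le_max_left _ _).trans hX) d.toNat (by omega) ?_ ?_ hc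
    · rintro ⟨r, hr⟩
      apply hsq
      exact ⟨(r : ℤ), by rw [← h5, hr]; push_cast; rfl⟩
    · have h6 : ((d.toNat : ℕ) : ℝ) = (d : ℝ) := by exact_mod_cast congrArg (fun z : ℤ => (z : ℝ)) h5
      rw [h6]
      exact (le_abs_self _).trans hdX

theorem main (ε : ℝ) (hε : 0 < ε) : ∃ C X0 : ℝ, ∀ X : ℝ, X0 ≤ X → ∀ (a : ℤ) (q H : ℕ), 1 ≤ q →
    1 ≤ H → (∀ j < H, |((a + q * j : ℤ) : ℝ)| ≤ X) →
    (((range H).filter (fun j : ℕ => ¬ IsSquare (a + q * j : ℤ) ∧
      ¬ GoodZ ε X (a + q * j))).card : ℝ) ≤ (H : ℝ) ^ (1 / 2 + ε) * Real.log X ^ C := by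
  obtain ⟨A0, hcrit⟩ := crit ε hε
  set A : ℝ := max A0 (max 3 (1 / ε)) with hA
  have hA3 : 3 ≤ A := (le_max_left _ _).trans (le_max_right _ _)
  have hAε : 1 / ε ≤ A := (le_max_right _ _).trans (le_max_right _ _)
  obtain ⟨X1, hX1, hcr⟩ := hcrit A (le_max_left _ _)
  set δ : ℝ := min (1 / 2) (ε / 6) with hδ
  have hδ0 : 0 < δ := lt_min (by norm_num) (by positivity)
  have hδh : δ ≤ 1 / 2 := min_le_left _ _
  have hδε : δ ≤ ε / 6 := min_le_right _ _
  have hexp : A / (2 * A - 1) + 3 * δ ≤ 1 / 2 + ε := by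
    have h1 : A / (2 * A - 1) = 1 / 2 + 1 / (2 * (2 * A - 1)) := by
      have h0 : 2 * A - 1 ≠ 0 := by linarith
      have h0' : 2 * (2 * A - 1) ≠ 0 := mul_ne_zero two_ne_zero h0
      rw [eq_comm, div_add_div _ _ two_ne_zero h0', div_eq_div_iff (mul_ne_zero two_ne_zero h0') h0]
      ring
    have h2 : 1 / (2 * (2 * A - 1)) ≤ ε / 2 := by
      rw [div_le_iff₀ (by linarith)]
      have h3 : 1 ≤ ε * A := by
        rw [div_le_iff₀ hε] at hAε
        linarith
      nlinarith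
    linarith
  -- eventual properties
  have E1 := ev_good A 0 δ (1 / 4) (by linarith) le_rfl hδ0 (by linarith) (by norm_num)
  have E1' := ev_good A 0 (δ / 2) (1 / 4) (by linarith) le_rfl (by linarith) (by linarith)
    (by norm_num)
  have E2 := ev_big A
  have E3 := ev_rpow_le 2 (A - δ) (A - δ / 2) (by linarith)
  have E4 := ev_rpow_le 6 1 (A - δ / 2) (by linarith)
  obtain ⟨y0, hP1⟩ := Pool.Agent.W255.LT.ltp
  obtain ⟨t0, ht0⟩ := eventually_atTop.1 ((E1.and E1').and ((E2.and (E3.and E4)).and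
    ((eventually_ge_atTop ((124 * A) ^ 2)).and (eventually_ge_atTop (y0 : ℝ)))))
  refine ⟨A + 1, max X1 (Real.exp t0), fun X hX a q H hq hH hXa => ?_⟩
  have hXX1 : X1 ≤ X := (le_max_left _ _).trans hX
  have hX3 : 3 ≤ X := hX1.trans hXX1
  have hXpos : 0 < X := by linarith
  set t := Real.log X with ht
  have htt0 : t0 ≤ t := by
    rw [ht, Real.le_log_iff_exp_le hXpos]
    exact (le_max_right _ _).trans hX
  obtain ⟨⟨hg, hg'⟩, ⟨hbig, hE3, hE4⟩, h124, hy0⟩ := ht0 t htt0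
  have hbig := hbig.resolve_right (by linarith)
  have ht1 : 1 ≤ t := hg.t1
  have htpos : 0 < t := by linarith
  -- a progression of one term
  rcases Nat.lt_or_ge H 2 with hH2 | hH2
  · have hH1 : H = 1 := by omega
    have h1 : (((range H).filter (fun j : ℕ => ¬ IsSquare (a + q * j : ℤ) ∧
        ¬ GoodZ ε X (a + q * j))).card : ℝ) ≤ 1 := by
      have := card_filter_le (range H) (fun j : ℕ => ¬ IsSquare (a + q * j : ℤ) ∧
        ¬ GoodZ ε X (a + q * j))
      rw [card_range, hH1] at this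
      rw [hH1]
      exact_mod_cast this
    refine h1.trans ?_
    rw [hH1, Nat.cast_one, Real.one_rpow, one_mul]
    exact Real.one_le_rpow ht1 (by linarith)
  -- size of `q` and `H`
  have hspan : ((q * (H - 1) : ℕ) : ℝ) ≤ 2 * X := by
    have h1 := hXa 0 (by omega)
    have h2 := hXa (H - 1) (by omega)
    have h3 : (((a + q * ((H - 1 : ℕ) : ℤ) : ℤ)) : ℝ) - ((a + q * ((0 : ℕ) : ℤ) : ℤ) : ℝ) =
        ((q * (H - 1) : ℕ) : ℝ) := by push_cast; ring
    rw [← h3]
    have h4 := (abs_le.1 h1).1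
    have h5 := (abs_le.1 h2).2
    linarith
  have hX2 : 2 * X ≤ X ^ 2 := by nlinarith
  have hqX : (q : ℝ) ≤ X ^ 2 := by
    have : q ≤ q * (H - 1) := Nat.le_mul_of_pos_right _ (by omega)
    have : (q : ℝ) ≤ ((q * (H - 1) : ℕ) : ℝ) := by exact_mod_cast this
    linarith
  have hHX : (H : ℝ) ≤ X ^ 2 := by
    have h1 : H - 1 ≤ q * (H - 1) := Nat.le_mul_of_pos_left _ (by omega)
    have h2 : ((H - 1 : ℕ) : ℝ) ≤ ((q * (H - 1) : ℕ) : ℝ) := by exact_mod_cast h1
    rw [Nat.cast_sub hH, Nat.cast_one] at h2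
    nlinarith
  have hlogX2 : Real.log (X ^ 2) = 2 * t := by rw [Real.log_pow]; norm_num; rfl
  have hHpos : (0 : ℝ) < H := by exact_mod_cast (by omega : 0 < H)
  have hHt : Real.log H ≤ 2 * t := by
    rw [← hlogX2]
    exact Real.log_le_log hHpos hHX
  -- the primes
  set y := ⌊t ^ A⌋₊ with hy
  set PP : Finset ℕ := (PQ y).filter (fun p => ¬ p ∣ q) with hPP
  have hPPsub : PP ⊆ PQ y := filter_subset _ _
  have hmemPQ : ∀ p ∈ PQ y, p.Prime ∧ 3 ≤ p ∧ p ≤ y := by
    intro p hp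
    unfold PQ at hp
    rw [mem_filter, mem_Icc] at hp
    exact ⟨hp.2, hp.1.1, hp.1.2⟩
  have hdiv : (((PQ y).filter (fun p => p ∣ q)).card : ℝ) ≤ 3 * t := by
    have := Pool.Agent.W791.LT.card_le_log (by omega : 0 < q) hqX
      ((PQ y).filter (fun p => p ∣ q)) (fun p hp => by
        have := mem_filter.1 hp
        exact ⟨(hmemPQ p this.1).1, this.2⟩)
    rw [hlogX2] at this
    linarith
  have hcardP : ((PQ y).card : ℝ) - 3 * t ≤ PP.card := by
    have h1 := Finset.card_filter_add_card_filter_not (s := PQ y) (fun p => p ∣ q)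
    have h3 : (((PQ y).filter (fun p => p ∣ q)).card : ℝ) + (PP.card : ℝ) = (PQ y).card := by
      rw [hPP]
      exact_mod_cast h1
    linarith
  have hsub : PPf (Yf A 0 t) ⊆ PQ y := by
    intro p hp
    rw [mem_PPf] at hp
    unfold PQ
    rw [mem_filter, mem_Icc]
    have h1 : Yf A 0 t = t ^ A := by unfold Yf; rw [Real.rpow_zero, mul_one]
    rw [h1] at hp
    refine ⟨⟨?_, Nat.le_floor hp.1.le⟩, hp.2.1⟩
    have := hp.2.1.two_le
    have := hp.2.2
    omega
  have hPQlo : t ^ (A - δ / 2) ≤ ((PQ y).card : ℝ) := by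
    refine hg'.Plo.trans ?_
    exact_mod_cast card_le_card hsub
  have hPlo : t ^ (A - δ) ≤ (PP.card : ℝ) := by
    rw [Real.rpow_one] at hE4
    linarith
  have hasy := Pool.Agent.W791.LT.asym (B := 1) one_pos (by linarith : (1 : ℝ) + 2 ≤ A) h124
  rw [Real.rpow_one] at hasy
  have hyy0 : y0 ≤ y := by
    apply Nat.le_floor
    calc (y0 : ℝ) ≤ t := hy0
      _ = t ^ (1 : ℝ) := (Real.rpow_one t).symm
      _ ≤ t ^ A := Real.rpow_le_rpow_of_exponent_le ht1 (by linarith)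
  have hPy := hP1 y hyy0
  have hyl : (y : ℝ) / (2 * Real.log y) = ((y : ℝ) / Real.log y) / 2 := by
    rw [div_div, mul_comm]
  have hyl20 : (y : ℝ) / (20 * Real.log y) = ((y : ℝ) / Real.log y) / 20 := by
    rw [div_div, mul_comm]
  rw [hyl] at hPy
  have hy1 : 1 ≤ y := by
    apply Nat.le_floor
    push_cast
    exact Real.one_le_rpow ht1 (by linarith)
  have hyt : (y : ℝ) ≤ t ^ (A + δ) := by
    refine (Nat.floor_le (by positivity)).trans ?_
    exact Real.rpow_le_rpow_of_exponent_le ht1 (by linarith)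
  -- the exceptional set
  have key := finG (A := A) (δ := δ) (ε := 1 / 4) (by linarith) hδ0 (by linarith) (by linarith)
    (by norm_num) (by norm_num) hg hbig PP y hy1 (fun p hp => (hmemPQ p (hPPsub hp)).1)
    (fun p hp => by have := (hmemPQ p (hPPsub hp)).2.1; omega)
    (fun p hp => (hmemPQ p (hPPsub hp)).2.2) hyt hPlo a q
    (fun p hp => (mem_filter.1 hp).2) H hH hHt
    ((range H).filter (fun j : ℕ => ¬ IsSquare (a + q * j : ℤ) ∧ ¬ GoodZ ε X (a + q * j)))
    (filter_subset _ _) (by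
      intro j hj
      obtain ⟨hjH, hns, hng⟩ := mem_filter.1 hj
      by_contra hcon
      push Not at hcon
      apply hng
      have hjX := hXa j (mem_range.1 hjH)
      have hd0 : (a + q * j : ℤ) ≠ 0 := by
        intro h
        exact hns ⟨0, by rw [h]; rfl⟩
      apply hcr X hXX1 _ hns
      · refine hjX.trans ?_
        nlinarith
      · have h1 := card_one PP (fun p hp => (hmemPQ p (hPPsub hp)).1) (a + q * j) hcon
        have h2 : ((PP.filter fun p : ℕ => (p : ℤ) ∣ (a + q * j : ℤ)).card : ℝ) ≤ 3 / 2 * t := by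
          have hpos : 0 < (a + q * j : ℤ).natAbs := Int.natAbs_pos.2 hd0
          refine Pool.Agent.W791.LT.card_le_log hpos ?_ _ ?_
          · have : (((a + q * j : ℤ).natAbs : ℕ) : ℝ) = |((a + q * j : ℤ) : ℝ)| := by
              rw [Nat.cast_natAbs, Int.cast_abs]
            rw [this]
            exact hjX
          · intro p hp
            rw [mem_filter] at hp
            exact ⟨(hmemPQ p (hPPsub hp.1)).1, Int.natCast_dvd.1 hp.2⟩
        have h3 : ((PP.filter fun p : ℕ => ¬ (p : ℤ) ∣ (a + q * j : ℤ) ∧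
            jacobiSym (a + q * j) p = 1).card : ℝ) ≤ ((SZ y (a + q * j)).card : ℝ) := by
          have : (PP.filter fun p : ℕ => ¬ (p : ℤ) ∣ (a + q * j : ℤ) ∧
              jacobiSym (a + q * j) p = 1) ⊆ SZ y (a + q * j) := by
            intro p hp
            rw [mem_filter] at hp
            unfold SZ
            rw [mem_filter]
            exact ⟨hPPsub hp.1, hp.2⟩
          exact_mod_cast card_le_card this
        rw [hyl20]
        linarith)
  refine key.trans ?_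
  refine mul_le_mul_of_nonneg_right ?_ (by positivity)
  apply Real.rpow_le_rpow_of_exponent_le _ hexp
  exact_mod_cast (by omega : 1 ≤ H)

end Pool.Agent.H568.TQ
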